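import Mathlib
import Pool.Agent.W51.FCC.Defs

set_option autoImplicit false

open Finset

namespace Pool.Agent.Q114.PK

open Pool.Agent.W51.FCC
open Pool.Agent.H126R2.CDC (MGraph)

/-- The weight of the edge `j` of the Petersen graph: two for a spoke, one otherwise. -/
def wt (j : Fin 15) : ℕ := if 5 ≤ j.val ∧ j.val < 10 then 2 else 1

theorem wt_even : ∀ y : Fin 10 → Bool,
    (∑ j : Fin 15, if y (pa j) ≠ y (pb j) then wt j else 0) % 2 = 0 := by
  decide +kernel

theorem wt_admissible : ∀ y : Fin 10 → Bool, ∀ j0 : Fin 15, y (pa j0) ≠ y (pb j0) →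
    2 * wt j0 ≤ ∑ j : Fin 15, if y (pa j) ≠ y (pb j) then wt j else 0 := by
  decide +kernel

theorem pa_ne_pb : ∀ j, pa j ≠ pb j := by decide

/-- number of sign changes -/
theorem changes (b : ℕ → Bool) (n : ℕ) :
    (((range n).filter fun i => b i ≠ b (i + 1)).card % 2 = 1) ↔ b 0 ≠ b n := by
  induction n with
  | zero => simp
  | succ n ih =>
    rw [range_add_one, filter_insert]
    by_cases h : b n ≠ b (n + 1)
    · rw [if_pos h, card_insert_of_notMem (by simp)]
      cases h0 : b 0 <;> cases hn : b n <;> cases hn1 : b (n + 1) <;> simp_all <;> omega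
    · rw [if_neg h, ih]
      rw [not_not] at h
      rw [h]

theorem eq_of_sum_le {α : Type} (F : Multiset α) (f g : α → ℕ) (h : ∀ C ∈ F, g C ≤ f C)
    (hs : (F.map f).sum ≤ (F.map g).sum) : ∀ C ∈ F, f C = g C := by
  intro C hC
  by_contra hne
  have h1 : g C < f C := lt_of_le_of_ne (h C hC) (Ne.symm hne)
  have h2 : (F.map g).sum < (F.map f).sum := Multiset.sum_lt_sum h ⟨C, hC, h1⟩
  omega

theorem countP_eq_sum {α : Type} (F : Multiset α) (p : α → Prop) [DecidablePred p] :
    F.countP p = (F.map fun C => if p C then 1 else 0).sum := by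
  induction F using Multiset.induction_on with
  | empty => simp
  | cons a s ih =>
    rw [Multiset.countP_cons, Multiset.map_cons, Multiset.sum_cons, ih]
    omega

theorem sum_even {α : Type} (F : Multiset α) (f : α → ℕ) (h : ∀ C ∈ F, f C % 2 = 0) :
    (F.map f).sum % 2 = 0 := by
  induction F using Multiset.induction_on with
  | empty => simp
  | cons a s ih =>
    rw [Multiset.map_cons, Multiset.sum_cons]
    have h1 := h a (Multiset.mem_cons_self a s)
    have h2 := ih fun C hC => h C (Multiset.mem_cons_of_mem hC)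
    omega

/-- The alternating subgraphs of the Petersen graph have an even number of outer edges. -/
theorem outer_even (s : Fin 15 → ℕ) (h1 : ∀ j, s j ≤ 1)
    (h : ∀ a : Fin 10, 2 * (∑ j ∈ univ.filter (fun j => (pa j = a ∨ pb j = a) ∧
      (5 ≤ j.val ∧ j.val < 10)), s j) =
      ∑ j ∈ univ.filter (fun j => pa j = a ∨ pb j = a), s j) :
    (s 0 + s 1 + s 2 + s 3 + s 4) % 2 = 0 := by
  have e0 := h 0
  have e1 := h 1
  have e2 := h 2
  have e3 := h 3
  have e4 := h 4
  have e5 := h 5
  have e6 := h 6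
  have e7 := h 7
  have e8 := h 8
  have e9 := h 9
  have k0 := h1 0
  have k1 := h1 1
  have k2 := h1 2
  have k3 := h1 3
  have k4 := h1 4
  have k5 := h1 5
  have k6 := h1 6
  have k7 := h1 7
  have k8 := h1 8
  have k9 := h1 9
  have k10 := h1 10
  have k11 := h1 11
  have k12 := h1 12
  have k13 := h1 13
  have k14 := h1 14
  simp only [Finset.sum_filter, Fin.sum_univ_succ, pa, pb] at e0 e1 e2 e3 e4 e5 e6 e7 e8 e9
  simp at e0 e1 e2 e3 e4 e5 e6 e7 e8 e9
  have c0 : s 0 = 0 ∨ s 0 = 1 := by omega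
  have c1 : s 1 = 0 ∨ s 1 = 1 := by omega
  have c2 : s 2 = 0 ∨ s 2 = 1 := by omega
  have c3 : s 3 = 0 ∨ s 3 = 1 := by omega
  have c4 : s 4 = 0 ∨ s 4 = 1 := by omega
  clear h h1
  rcases c0 with c0 | c0 <;> rcases c1 with c1 | c1 <;> rcases c2 with c2 | c2 <;>
    rcases c3 with c3 | c3 <;> rcases c4 with c4 | c4 <;> omega

end Pool.Agent.Q114.PK
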