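import Pool.Agent.Q114.PK.Weight

set_option autoImplicit false

open Finset

namespace Pool.Agent.Q114.PK

open Pool.Agent.W51.FCC
open Pool.Agent.H126R2.CDC (MGraph)

variable {V E : Type} [Fintype V] [DecidableEq V] [Fintype E] [DecidableEq E] {G : MGraph V E}

omit [Fintype V] [DecidableEq V] [Fintype E] [DecidableEq E] in
theorem br_zero (P : PetersenSubdivision G) {j : Fin 15} {i : ℕ} (hi : i ≤ P.len j)
    {a : Fin 10} (h : P.vx j i = P.br a) : i = 0 ∧ pa j = a := by
  rcases Nat.eq_zero_or_pos i with h0 | h0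
  · subst h0
    rw [P.start] at h
    exact ⟨rfl, P.br_inj h⟩
  · exact absurd h (P.inner_ne j i a h0 hi)

omit [Fintype V] [DecidableEq V] [Fintype E] [DecidableEq E] in
theorem br_last (P : PetersenSubdivision G) {j : Fin 15} {i : ℕ} (hi : i ≤ P.len j)
    {a : Fin 10} (h : P.vx j (i + 1) = P.br a) : i = P.len j ∧ pb j = a := by
  rcases Nat.lt_or_ge i (P.len j) with h0 | h0
  · exact absurd h (P.inner_ne j (i + 1) a (by omega) (by omega))
  · have h1 : i = P.len j := by omega
    subst h1
    rw [P.stop] at h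
    exact ⟨rfl, P.br_inj h⟩

omit [Fintype V] [DecidableEq V] [Fintype E] [DecidableEq E] in
theorem no_loop (P : PetersenSubdivision G) {j : Fin 15} {i : ℕ} (hi : i ≤ P.len j) (v : V) :
    G.ends (P.ed j i) ≠ s(v, v) := by
  rw [P.ends j i hi]
  intro h
  rw [Sym2.eq_iff] at h
  have h1 : P.vx j i = P.vx j (i + 1) := by
    rcases h with h | h
    · rw [h.1, h.2]
    · rw [h.1, h.2]
  rcases Nat.eq_zero_or_pos i with h0 | h0
  · subst h0
    rw [P.start] at h1
    have h2 := br_last P hi h1.symm
    exact pa_ne_pb j h2.2.symm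
  · rcases Nat.lt_or_ge i (P.len j) with h2 | h2
    · have := (P.inner_inj j i j (i + 1) h0 hi (by omega) (by omega) h1).2
      omega
    · have h3 : i = P.len j := by omega
      subst h3
      rw [P.stop] at h1
      exact P.inner_ne j _ _ h0 hi h1

theorem deg_eq (P : PetersenSubdivision G) (C : Finset E)
    (hC : ∀ e ∈ C, ∃ j i, i ≤ P.len j ∧ P.ed j i = e) (v : V) :
    G.deg C v = (C.filter fun e => v ∈ G.ends e).card := by
  have h0 : (C.filter fun e => G.ends e = s(v, v)).card = 0 := by
    rw [Finset.card_eq_zero, Finset.filter_eq_empty_iff]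
    intro e he
    obtain ⟨j, i, hi, rfl⟩ := hC e he
    exact no_loop P hi v
  unfold MGraph.deg
  rw [h0, add_zero]

theorem step (P : PetersenSubdivision G) (C : Finset E)
    (hC : ∀ e ∈ C, ∃ j i, i ≤ P.len j ∧ P.ed j i = e)
    (hd : ∀ v, G.deg C v = 0 ∨ G.deg C v = 2) {j : Fin 15} {i : ℕ} (hi : i + 1 ≤ P.len j) :
    P.ed j (i + 1) ∈ C ↔ P.ed j i ∈ C := by
  have h1 : ∀ e ∈ C.filter (fun e => P.vx j (i + 1) ∈ G.ends e), e = P.ed j i ∨ e = P.ed j (i + 1) := by
    intro e he
    rw [mem_filter] at he
    obtain ⟨j', i', hi', rfl⟩ := hC e he.1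
    have h2 := he.2
    rw [P.ends j' i' hi', Sym2.mem_iff] at h2
    rcases h2 with h2 | h2
    · rcases Nat.eq_zero_or_pos i' with h0 | h0
      · subst h0
        rw [P.start] at h2
        exact absurd h2 (P.inner_ne j (i + 1) _ (by omega) hi)
      · obtain ⟨h3, h4⟩ := P.inner_inj j (i + 1) j' i' (by omega) hi h0 hi' h2
        subst h3; subst h4
        exact Or.inr rfl
    · rcases Nat.lt_or_ge i' (P.len j') with h0 | h0
      · obtain ⟨h3, h4⟩ := P.inner_inj j (i + 1) j' (i' + 1) (by omega) hi (by omega) h0 h2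
        subst h3
        have h5 : i = i' := by omega
        subst h5
        exact Or.inl rfl
      · have h3 : i' = P.len j' := by omega
        subst h3
        rw [P.stop] at h2
        exact absurd h2 (P.inner_ne j (i + 1) _ (by omega) hi)
  have hdeg := hd (P.vx j (i + 1))
  rw [deg_eq P C hC] at hdeg
  have hm0 : P.vx j (i + 1) ∈ G.ends (P.ed j i) := by
    rw [P.ends j i (by omega)]; exact Sym2.mem_mk_right _ _
  have hm1 : P.vx j (i + 1) ∈ G.ends (P.ed j (i + 1)) := by
    rw [P.ends j (i + 1) hi]; exact Sym2.mem_mk_left _ _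
  constructor
  · intro h
    by_contra hn
    have h2 : C.filter (fun e => P.vx j (i + 1) ∈ G.ends e) = {P.ed j (i + 1)} := by
      ext e
      rw [mem_singleton]
      constructor
      · intro he
        rcases h1 e he with h3 | h3
        · rw [h3] at he
          exact absurd (mem_filter.1 he).1 hn
        · exact h3
      · rintro rfl
        exact mem_filter.2 ⟨h, hm1⟩
    rw [h2, card_singleton] at hdeg
    omega
  · intro h
    by_contra hn
    have h2 : C.filter (fun e => P.vx j (i + 1) ∈ G.ends e) = {P.ed j i} := by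
      ext e
      rw [mem_singleton]
      constructor
      · intro he
        rcases h1 e he with h3 | h3
        · exact h3
        · rw [h3] at he
          exact absurd (mem_filter.1 he).1 hn
      · rintro rfl
        exact mem_filter.2 ⟨h, hm0⟩
    rw [h2, card_singleton] at hdeg
    omega

theorem all_or_none (P : PetersenSubdivision G) (C : Finset E)
    (hC : ∀ e ∈ C, ∃ j i, i ≤ P.len j ∧ P.ed j i = e)
    (hd : ∀ v, G.deg C v = 0 ∨ G.deg C v = 2) {j : Fin 15} {i : ℕ} (hi : i ≤ P.len j) :
    P.ed j i ∈ C ↔ P.ed j 0 ∈ C := by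
  induction i with
  | zero => exact Iff.rfl
  | succ i ih => rw [step P C hC hd hi]; exact ih (by omega)

theorem deg_branch (P : PetersenSubdivision G) (C : Finset E)
    (hC : ∀ e ∈ C, ∃ j i, i ≤ P.len j ∧ P.ed j i = e)
    (hd : ∀ v, G.deg C v = 0 ∨ G.deg C v = 2) (a : Fin 10) :
    G.deg C (P.br a) = ∑ j ∈ univ.filter (fun j => pa j = a ∨ pb j = a),
      if P.ed j 0 ∈ C then 1 else 0 := by
  rw [deg_eq P C hC, card_eq P _ fun e he => hC e (mem_filter.1 he).1, sum_filter]
  refine sum_congr rfl fun j _ => ?_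
  by_cases ha : pa j = a
  · have hb : pb j ≠ a := fun h => pa_ne_pb j (ha.trans h.symm)
    rw [if_pos (Or.inl ha)]
    have h1 : ((range (P.len j + 1)).filter fun i =>
        P.ed j i ∈ C.filter fun e => P.br a ∈ G.ends e) = if P.ed j 0 ∈ C then {0} else ∅ := by
      ext i
      rw [mem_filter, mem_range, Nat.lt_succ_iff, mem_filter]
      constructor
      · rintro ⟨hi, h2, h3⟩
        rw [P.ends j i hi, Sym2.mem_iff] at h3
        rcases h3 with h3 | h3
        · obtain ⟨rfl, -⟩ := br_zero P hi h3.symm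
          rw [if_pos h2]; simp
        · exact absurd (br_last P hi h3.symm).2 hb
      · intro h
        split_ifs at h with h2
        · rw [mem_singleton] at h
          subst h
          refine ⟨Nat.zero_le _, h2, ?_⟩
          rw [P.ends j 0 (Nat.zero_le _), P.start, ha]
          exact Sym2.mem_mk_left _ _
        · simp at h
    rw [h1]
    split_ifs <;> simp
  · by_cases hb : pb j = a
    · rw [if_pos (Or.inr hb)]
      have h1 : ((range (P.len j + 1)).filter fun i =>
          P.ed j i ∈ C.filter fun e => P.br a ∈ G.ends e) =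
          if P.ed j 0 ∈ C then {P.len j} else ∅ := by
        ext i
        rw [mem_filter, mem_range, Nat.lt_succ_iff, mem_filter]
        constructor
        · rintro ⟨hi, h2, h3⟩
          rw [P.ends j i hi, Sym2.mem_iff] at h3
          rcases h3 with h3 | h3
          · exact absurd (br_zero P hi h3.symm).2 ha
          · obtain ⟨rfl, -⟩ := br_last P hi h3.symm
            rw [if_pos ((all_or_none P C hC hd le_rfl).1 h2)]; simp
        · intro h
          split_ifs at h with h2
          · rw [mem_singleton] at h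
            subst h
            refine ⟨le_rfl, (all_or_none P C hC hd le_rfl).2 h2, ?_⟩
            rw [P.ends j _ le_rfl, P.stop, hb]
            exact Sym2.mem_mk_right _ _
          · simp at h
      rw [h1]
      split_ifs <;> simp
    · rw [if_neg (by tauto), Finset.card_eq_zero, Finset.filter_eq_empty_iff]
      intro i hi h
      rw [mem_range, Nat.lt_succ_iff] at hi
      have h3 := (mem_filter.1 h).2
      rw [P.ends j i hi, Sym2.mem_iff] at h3
      rcases h3 with h3 | h3
      · exact ha (br_zero P hi h3.symm).2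
      · exact hb (br_last P hi h3.symm).2

theorem sum_map_finsum {α ι : Type} (F : Multiset α) (T : Finset ι) (s : α → ι → ℕ) :
    (F.map fun C => ∑ j ∈ T, s C j).sum = ∑ j ∈ T, (F.map fun C => s C j).sum := by
  induction F using Multiset.induction_on with
  | empty => simp
  | cons a s ih => simp [ih, sum_add_distrib]

theorem wt_total : ∀ a : Fin 10, ∑ j ∈ univ.filter (fun j => pa j = a ∨ pb j = a), wt j = 4 := by
  decide

theorem wt_spoke : ∀ a : Fin 10, ∑ j ∈ univ.filter (fun j => (pa j = a ∨ pb j = a) ∧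
      (5 ≤ j.val ∧ j.val < 10)), wt j = 2 := by
  decide

theorem spoke_one : ∀ a : Fin 10, ∃ j0 : Fin 15, univ.filter (fun j => (pa j = a ∨ pb j = a) ∧
      (5 ≤ j.val ∧ j.val < 10)) = {j0} ∧ j0 ∈ univ.filter (fun j => pa j = a ∨ pb j = a) := by
  decide

theorem sum_outer (s : Fin 15 → ℕ) :
    ∑ j ∈ univ.filter (fun j : Fin 15 => j.val < 5), s j = s 0 + s 1 + s 2 + s 3 + s 4 := by
  have h2 : univ.filter (fun j : Fin 15 => j.val < 5) = {0, 1, 2, 3, 4} := by decide
  rw [h2, sum_insert (by decide), sum_insert (by decide), sum_insert (by decide),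
    sum_insert (by decide), sum_singleton]
  ring

theorem not_hasCover (P : PetersenSubdivision G) {k : ℕ} (hk : Odd k) :
    ¬ HasCover G (weight P k) := by
  rintro ⟨F, hF, hcount⟩
  have hsub : ∀ C ∈ F, ∀ e ∈ C, ∃ j i, i ≤ P.len j ∧ P.ed j i = e := by
    intro C hC e he
    refine exists_of_weight_ne_zero P k ?_
    rw [← hcount e]
    have : 0 < F.countP fun C => e ∈ C := Multiset.countP_pos.2 ⟨C, hC, he⟩
    omega
  have hsum : ∀ j, (F.map fun C => if P.ed j 0 ∈ C then 1 else 0).sum = k * wt j := by
    intro j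
    rw [← countP_eq_sum, hcount, weight_ed P k (Nat.zero_le _)]
  have halt : ∀ a : Fin 10, ∀ C ∈ F,
      (∑ j ∈ univ.filter (fun j => pa j = a ∨ pb j = a), if P.ed j 0 ∈ C then 1 else 0) =
      2 * ∑ j ∈ univ.filter (fun j => (pa j = a ∨ pb j = a) ∧ (5 ≤ j.val ∧ j.val < 10)),
        if P.ed j 0 ∈ C then 1 else 0 := by
    intro a
    refine eq_of_sum_le F _ _ ?_ ?_
    · intro C hC
      have hd := (hF C hC).2.1 (P.br a)
      rw [deg_branch P C (hsub C hC) (hF C hC).2.1] at hd
      obtain ⟨j0, h0, h1⟩ := spoke_one a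
      rw [h0, sum_singleton]
      have h2 := single_le_sum (f := fun j => if P.ed j 0 ∈ C then 1 else 0)
        (fun _ _ => Nat.zero_le _) h1
      split_ifs at h2 ⊢ <;> omega
    · rw [sum_map_finsum]
      have h3 : (F.map fun C => 2 * ∑ j ∈ univ.filter (fun j => (pa j = a ∨ pb j = a) ∧
          (5 ≤ j.val ∧ j.val < 10)), if P.ed j 0 ∈ C then 1 else 0).sum = 2 * (k * 2) := by
        rw [Multiset.sum_map_mul_left, sum_map_finsum]
        simp only [hsum]
        rw [← mul_sum, wt_spoke]
      rw [h3]
      simp only [hsum]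
      rw [← mul_sum, wt_total]
      omega
  have heven : ∀ C ∈ F, (∑ j ∈ univ.filter (fun j : Fin 15 => j.val < 5),
      if P.ed j 0 ∈ C then 1 else 0) % 2 = 0 := by
    intro C hC
    have h := outer_even (fun j => if P.ed j 0 ∈ C then 1 else 0) (fun j => by
      split_ifs <;> omega) fun a => (halt a C hC).symm
    rw [sum_outer]
    exact h
  have h1 := sum_even F _ heven
  rw [sum_map_finsum] at h1
  simp only [hsum] at h1
  rw [← mul_sum] at h1
  have h2 : ∑ j ∈ univ.filter (fun j : Fin 15 => j.val < 5), wt j = 5 := by decide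
  rw [h2] at h1
  obtain ⟨m, rfl⟩ := hk
  omega

theorem not_propertyP (P : PetersenSubdivision G) {k : ℕ} (hk : Odd k) : ¬ PropertyP k G :=
  fun h => not_hasCover P hk (h _ (fun _ => Dvd.intro _ rfl) (admissible P k) (eulerian P k))

end Pool.Agent.Q114.PK
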