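import Pool.Agent.Q114.PK.Basic

set_option autoImplicit false

open Finset

namespace Pool.Agent.Q114.PK

open Pool.Agent.W51.FCC
open Pool.Agent.H126R2.CDC (MGraph)

variable {V E : Type} [Fintype V] [DecidableEq V] [Fintype E] [DecidableEq E] {G : MGraph V E}

/-- The pairs `(j, i)` indexing the edges of the subdivision. -/
def idx (P : PetersenSubdivision G) : Finset (Σ _ : Fin 15, ℕ) :=
  univ.sigma fun j => range (P.len j + 1)

omit [Fintype V] [DecidableEq V] [Fintype E] [DecidableEq E] in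
theorem mem_idx {P : PetersenSubdivision G} {p : Σ _ : Fin 15, ℕ} :
    p ∈ idx P ↔ p.2 ≤ P.len p.1 := by
  unfold idx
  rw [mem_sigma, mem_range]
  simp

/-- The weight: `k` times the weight of the Petersen graph on the subdivision, `0` elsewhere. -/
def weight (P : PetersenSubdivision G) (k : ℕ) (e : E) : ℕ :=
  k * ∑ p ∈ idx P, if P.ed p.1 p.2 = e then wt p.1 else 0

omit [Fintype V] [DecidableEq V] [Fintype E] [DecidableEq E] in
theorem ed_injOn (P : PetersenSubdivision G) {p q : Σ _ : Fin 15, ℕ} (hp : p ∈ idx P)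
    (hq : q ∈ idx P) (h : P.ed p.1 p.2 = P.ed q.1 q.2) : p = q := by
  obtain ⟨h1, h2⟩ := P.ed_inj _ _ _ _ (mem_idx.1 hp) (mem_idx.1 hq) h
  cases p; cases q
  simp only at h1 h2
  subst h1; subst h2; rfl

omit [Fintype V] [DecidableEq V] [Fintype E] in
theorem weight_ed (P : PetersenSubdivision G) (k : ℕ) {j : Fin 15} {i : ℕ} (hi : i ≤ P.len j) :
    weight P k (P.ed j i) = k * wt j := by
  unfold weight
  congr 1
  rw [sum_eq_single_of_mem (⟨j, i⟩ : Σ _ : Fin 15, ℕ) (mem_idx.2 hi)]
  · simp
  · intro q hq hne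
    rw [if_neg]
    intro h
    exact hne (ed_injOn P hq (mem_idx.2 hi) h)

omit [Fintype V] [DecidableEq V] [Fintype E] in
theorem exists_of_weight_ne_zero (P : PetersenSubdivision G) (k : ℕ) {e : E}
    (he : weight P k e ≠ 0) : ∃ j i, i ≤ P.len j ∧ P.ed j i = e := by
  by_contra hcon
  push Not at hcon
  refine he ?_
  unfold weight
  rw [sum_eq_zero, mul_zero]
  intro p hp
  rw [if_neg (hcon _ _ (mem_idx.1 hp))]

omit [Fintype V] [DecidableEq V] [Fintype E] in
/-- Sums over edge sets. -/
theorem sum_weight (P : PetersenSubdivision G) (k : ℕ) (D : Finset E) :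
    ∑ e ∈ D, weight P k e =
      k * ∑ j, wt j * ((range (P.len j + 1)).filter fun i => P.ed j i ∈ D).card := by
  unfold weight
  rw [← mul_sum, sum_comm]
  congr 1
  unfold idx
  rw [sum_sigma]
  refine sum_congr rfl fun j _ => ?_
  rw [card_filter, mul_sum]
  refine sum_congr rfl fun i _ => ?_
  rw [sum_ite_eq]
  split_ifs <;> simp

omit [Fintype V] [DecidableEq V] [Fintype E] in
theorem card_eq (P : PetersenSubdivision G) (D : Finset E)
    (hD : ∀ e ∈ D, ∃ j i, i ≤ P.len j ∧ P.ed j i = e) :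
    D.card = ∑ j, ((range (P.len j + 1)).filter fun i => P.ed j i ∈ D).card := by
  have h1 : D = ((idx P).filter fun p => P.ed p.1 p.2 ∈ D).image fun p => P.ed p.1 p.2 := by
    ext e
    rw [mem_image]
    constructor
    · intro he
      obtain ⟨j, i, hi, rfl⟩ := hD e he
      exact ⟨⟨j, i⟩, mem_filter.2 ⟨mem_idx.2 hi, he⟩, rfl⟩
    · rintro ⟨p, hp, rfl⟩
      exact (mem_filter.1 hp).2
  have h2 : D.card = ((idx P).filter fun p => P.ed p.1 p.2 ∈ D).card := by
    conv_lhs => rw [h1]
    refine card_image_of_injOn ?_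
    intro p hp q hq h
    exact ed_injOn P (mem_filter.1 hp).1 (mem_filter.1 hq).1 h
  rw [h2, card_filter]
  unfold idx
  rw [sum_sigma]
  refine sum_congr rfl fun j _ => ?_
  rw [card_filter]

theorem mem_cut (P : PetersenSubdivision G) (X : Finset V) {j : Fin 15} {i : ℕ}
    (hi : i ≤ P.len j) : P.ed j i ∈ cut G X ↔
      decide (P.vx j i ∈ X) ≠ decide (P.vx j (i + 1) ∈ X) := by
  unfold cut
  rw [mem_filter, P.ends j i hi]
  simp only [mem_univ, true_and, Sym2.mem_iff, exists_eq_or_imp, exists_eq_left]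
  by_cases h1 : P.vx j i ∈ X <;> by_cases h2 : P.vx j (i + 1) ∈ X <;> simp [h1, h2]

theorem cut_weight (P : PetersenSubdivision G) (k : ℕ) (X : Finset V) :
    ∑ e ∈ cut G X, weight P k e =
      k * ∑ j, wt j * ((range (P.len j + 1)).filter fun i =>
        decide (P.vx j i ∈ X) ≠ decide (P.vx j (i + 1) ∈ X)).card := by
  rw [sum_weight]
  congr 1
  refine sum_congr rfl fun j _ => ?_
  congr 2
  refine filter_congr fun i hi => ?_
  rw [mem_range, Nat.lt_succ_iff] at hi
  exact mem_cut P X hi

theorem cr_odd (P : PetersenSubdivision G) (X : Finset V) (j : Fin 15) :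
    ((range (P.len j + 1)).filter fun i =>
        decide (P.vx j i ∈ X) ≠ decide (P.vx j (i + 1) ∈ X)).card % 2 = 1 ↔
      decide (P.br (pa j) ∈ X) ≠ decide (P.br (pb j) ∈ X) := by
  have h := changes (fun i => decide (P.vx j i ∈ X)) (P.len j + 1)
  rw [P.start, P.stop] at h
  exact h

theorem eulerian (P : PetersenSubdivision G) (k : ℕ) : Eulerian G (weight P k) := by
  intro X
  rw [cut_weight]
  refine Even.mul_left ?_ k
  rw [Nat.even_iff, Finset.sum_nat_mod]
  have h := wt_even fun a => decide (P.br a ∈ X)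
  rw [Finset.sum_nat_mod] at h
  rw [← h]
  congr 1
  refine sum_congr rfl fun j _ => ?_
  have h1 := cr_odd P X j
  split_ifs with h2
  · rw [Nat.mul_mod, h1.2 h2]
    simp
  · have h3 : ((range (P.len j + 1)).filter fun i =>
        decide (P.vx j i ∈ X) ≠ decide (P.vx j (i + 1) ∈ X)).card % 2 = 0 := by
      have h4 : ¬ (((range (P.len j + 1)).filter fun i =>
        decide (P.vx j i ∈ X) ≠ decide (P.vx j (i + 1) ∈ X)).card % 2 = 1) :=
        fun h => h2 (h1.1 h)
      omega
    rw [Nat.mul_mod, h3]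
    simp

theorem admissible (P : PetersenSubdivision G) (k : ℕ) : Admissible G (weight P k) := by
  intro X e he
  rcases eq_or_ne (weight P k e) 0 with h0 | h0
  · rw [h0]; exact Nat.zero_le _
  obtain ⟨j, i, hi, rfl⟩ := exists_of_weight_ne_zero P k h0
  have htot := cut_weight P k X
  rw [← Finset.add_sum_erase _ _ he] at htot
  rw [weight_ed P k hi] at htot ⊢
  have hmem := (mem_cut P X hi).1 he
  have hpos : ∀ j', decide (P.br (pa j') ∈ X) ≠ decide (P.br (pb j') ∈ X) →
      1 ≤ ((range (P.len j' + 1)).filter fun i =>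
        decide (P.vx j' i ∈ X) ≠ decide (P.vx j' (i + 1) ∈ X)).card := by
    intro j' h
    have := (cr_odd P X j').2 h
    omega
  have key : 2 * wt j ≤ ∑ j, wt j * ((range (P.len j + 1)).filter fun i =>
        decide (P.vx j i ∈ X) ≠ decide (P.vx j (i + 1) ∈ X)).card := by
    by_cases hodd : decide (P.br (pa j) ∈ X) ≠ decide (P.br (pb j) ∈ X)
    · refine (wt_admissible (fun a => decide (P.br a ∈ X)) j hodd).trans ?_
      refine sum_le_sum fun j' _ => ?_
      split_ifs with h
      · exact Nat.le_mul_of_pos_right _ (hpos j' h)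
      · exact Nat.zero_le _
    · have h1 : 1 ≤ ((range (P.len j + 1)).filter fun i =>
          decide (P.vx j i ∈ X) ≠ decide (P.vx j (i + 1) ∈ X)).card :=
        Finset.card_pos.2 ⟨i, mem_filter.2 ⟨mem_range.2 (Nat.lt_succ_of_le hi), hmem⟩⟩
      have h2 : ((range (P.len j + 1)).filter fun i =>
          decide (P.vx j i ∈ X) ≠ decide (P.vx j (i + 1) ∈ X)).card % 2 ≠ 1 :=
        fun h => hodd ((cr_odd P X j).1 h)
      refine le_trans ?_ (single_le_sum (f := fun j => wt j * ((range (P.len j + 1)).filter fun i =>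
        decide (P.vx j i ∈ X) ≠ decide (P.vx j (i + 1) ∈ X)).card)
        (fun _ _ => Nat.zero_le _) (mem_univ j))
      rw [Nat.mul_comm]
      exact Nat.mul_le_mul_left _ (by omega)
  have h2 := Nat.mul_le_mul_left k key
  have h3 : k * (2 * wt j) = 2 * (k * wt j) := by ring
  omega

end Pool.Agent.Q114.PK
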